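import Mathlib
import Pool.Agent.H759R2.Kad.Props6

open scoped ComplexOrder InnerProductSpace ComplexConjugate
open Finset

noncomputable section

namespace H759R2.Kad

universe u v

section aux

variable {A : Type u} [CStarAlgebra A]

theorem cop_vp {v p : A} (hv : star v * v = p) (hp : Prj p) : v * p = v := by
  have h : star (v * p - v) * (v * p - v) = 0 := by
    rw [star_sub, star_mul, hp.1]
    have e : (p * star v - star v) * (v * p - v) =
        p * (star v * v) * p - p * (star v * v) - (star v * v) * p + star v * v := by noncomm_ring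
    rw [e, hv, hp.2, hp.2]
    noncomm_ring
  have h2 := (CStarRing.star_mul_self_eq_zero_iff _).1 h
  exact sub_eq_zero.1 h2

theorem cop_pv {v e p : A} (hv : star v * v = p) (hp : Prj p) (he : v * star v = e) :
    e * v = v := by
  rw [← he, mul_assoc, hv, cop_vp hv hp]

end aux

theorem prove6_cop (h1 : W_comp.{u}) (h2 : W_inf.{u}) : W_cop.{u} := by
  intro A _ hW z hz hzf p hp hzp hp0
  classical
  set S : Set (Set A) := {J | (∀ e ∈ J, Prj e ∧ z * e = e ∧ ∃ v, star v * v = p ∧ v * star v = e) ∧
    ∀ e ∈ J, ∀ f ∈ J, e ≠ f → e * f = 0} with hS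
  obtain ⟨J, hJ⟩ : ∃ J, Maximal (· ∈ S) J := by
    apply zorn_subset
    intro c hc hchain
    refine ⟨⋃₀ c, ⟨?_, ?_⟩, fun s hs => Set.subset_sUnion_of_mem hs⟩
    · rintro e ⟨s, hs, he⟩
      exact (hc hs).1 e he
    · rintro e ⟨s, hs, he⟩ f ⟨t, ht, hf⟩ hef
      rcases hchain.total hs ht with h | h
      · exact (hc ht).2 e (h he) f hf hef
      · exact (hc hs).2 e he f (h hf) hef
  obtain ⟨hJ1, hJ2⟩ := hJ.1
  -- `J` is finite
  have hfin : J.Finite := by
    by_contra hinf
    have hinf : J.Infinite := hinf
    apply hp0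
    let ι := hinf.natEmbedding
    choose v hv1 hv2 using fun i : ℕ => (hJ1 (ι i) (ι i).2).2.2
    have hev : ∀ i, ((ι i : A)) * v i = v i := fun i => cop_pv (hv1 i) hp (hv2 i)
    refine h2 A hW z hz.1 hzf v p hp ?_ ?_
    · intro i j
      split_ifs with hij
      · rw [hij]; exact hv1 j
      · have hne : (ι i : A) ≠ (ι j : A) := by
          intro h
          exact hij (ι.injective (Subtype.ext h))
        have h3 := hJ2 _ (ι i).2 _ (ι j).2 hne
        have h4 : star (v i) * (ι i : A) = star (v i) := by
          have h5 := congrArg star (hev i)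
          rwa [star_mul, (hJ1 _ (ι i).2).1.1] at h5
        calc star (v i) * v j = (star (v i) * (ι i : A)) * ((ι j : A) * v j) := by
              rw [h4, hev]
          _ = star (v i) * ((ι i : A) * (ι j : A)) * v j := by noncomm_ring
          _ = 0 := by rw [h3, mul_zero, zero_mul]
    · intro i
      rw [← hev i, ← mul_assoc, (hJ1 _ (ι i).2).2.1]
  set Jf : Finset A := hfin.toFinset with hJf
  have hmem : ∀ e, e ∈ Jf ↔ e ∈ J := fun e => by rw [hJf, Set.Finite.mem_toFinset]
  set s : A := ∑ e ∈ Jf, e with hs
  set r : A := z - s with hr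
  have hzs : z * s = s := by
    rw [hs, Finset.mul_sum]
    exact Finset.sum_congr rfl fun e he => (hJ1 e ((hmem e).1 he)).2.1
  have hsz : s * z = s := by rw [← hz.2, hzs]
  have hes : ∀ e ∈ J, e * s = e := by
    intro e he
    rw [hs, Finset.mul_sum, Finset.sum_eq_single e]
    · exact (hJ1 e he).1.2
    · intro f hf hfe
      exact hJ2 e he f ((hmem f).1 hf) (Ne.symm hfe)
    · intro h
      exact absurd ((hmem e).2 he) h
  have hss : s * s = s := by
    have h3 : s * s = ∑ e ∈ Jf, e * s := by
      conv_lhs => rw [hs, Finset.sum_mul]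
    rw [h3]
    conv_rhs => rw [hs]
    exact Finset.sum_congr rfl fun e he => hes e ((hmem e).1 he)
  have hstars : star s = s := by
    rw [hs, star_sum]
    exact Finset.sum_congr rfl fun e he => (hJ1 e ((hmem e).1 he)).1.1
  have hrp : Prj r := by
    constructor
    · rw [hr, star_sub, hz.1.1, hstars]
    · rw [hr]
      have : (z - s) * (z - s) = z * z - z * s - s * z + s * s := by noncomm_ring
      rw [this, hz.1.2, hzs, hsz, hss]
      abel
  have her : ∀ e ∈ J, e * r = 0 := by
    intro e he
    rw [hr, mul_sub, hes e he, ← hz.2, (hJ1 e he).2.1, sub_self]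
  have hzr : z * r = r := by rw [hr, mul_sub, hz.1.2, hzs]
  obtain ⟨g0, hg0, hS1, hS2⟩ := h1 A hW r p hrp hp
  have hgp : g0 * p ≠ 0 := by
    intro hcon
    obtain ⟨w, hw1, hw2⟩ := hS2
    have hw1' : star w * w = p := by rw [hw1, sub_mul, one_mul, hcon, sub_zero]
    have hcen : ∀ a, (1 - g0) * a = a * (1 - g0) := by
      intro a; rw [sub_mul, mul_sub, one_mul, mul_one, hg0.2 a]
    have hidem : (1 - g0) * (1 - g0) = 1 - g0 := by
      rw [sub_mul, mul_sub, mul_sub, hg0.1.2]; simp
    have hrw : r * w = w := by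
      calc r * w = r * ((1 - g0) * r * w) := by rw [hw2]
        _ = (r * (1 - g0)) * (r * w) := by noncomm_ring
        _ = ((1 - g0) * r) * (r * w) := by rw [hcen r]
        _ = (1 - g0) * (r * r) * w := by noncomm_ring
        _ = w := by rw [hrp.2, hw2]
    have hf : Prj (w * star w) := by
      constructor
      · rw [star_mul, star_star]
      · calc w * star w * (w * star w) = w * (star w * w) * star w := by noncomm_ring
          _ = w * star w := by rw [hw1', cop_vp hw1' hp]
    have hrf : r * (w * star w) = w * star w := by rw [← mul_assoc, hrw]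
    have hzf' : z * (w * star w) = w * star w := by
      rw [← hrf, ← mul_assoc, hzr]
    have hef : ∀ e ∈ J, e * (w * star w) = 0 := by
      intro e he
      rw [← hrf, ← mul_assoc, her e he, zero_mul]
    have hfe : ∀ e ∈ J, (w * star w) * e = 0 := by
      intro e he
      have h3 := congrArg star (hef e he)
      rwa [star_mul, star_zero, hf.1, (hJ1 e he).1.1] at h3
    have hnot : w * star w ∉ J := by
      intro hin
      have h3 := hef _ hin
      rw [hf.2] at h3
      have h4 := (CStarRing.mul_star_self_eq_zero_iff w).1 h3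
      rw [h4, mul_zero] at hw1'
      exact hp0 hw1'.symm
    have hins : insert (w * star w) J ∈ S := by
      constructor
      · rintro e (rfl | he)
        · exact ⟨hf, hzf', w, hw1', rfl⟩
        · exact hJ1 e he
      · rintro e (rfl | he) f (rfl | hf') hne
        · exact absurd rfl hne
        · exact hfe f hf'
        · exact hef e he
        · exact hJ2 e he f hf' hne
    exact hnot (hJ.2 hins (Set.subset_insert _ _) (Set.mem_insert _ _))
  obtain ⟨t, ht1, ht2⟩ := hS1
  have hg0r : Prj (g0 * r) := by
    constructor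
    · rw [star_mul, hrp.1, hg0.1.1, hg0.2]
    · calc g0 * r * (g0 * r) = g0 * (r * g0) * r := by noncomm_ring
        _ = g0 * (g0 * r) * r := by rw [hg0.2 r]
        _ = (g0 * g0) * (r * r) := by noncomm_ring
        _ = g0 * r := by rw [hg0.1.2, hrp.2]
  have hgc : CPrj (g0 * z) := by
    refine ⟨⟨?_, ?_⟩, ?_⟩
    · rw [star_mul, hz.1.1, hg0.1.1, hg0.2]
    · calc g0 * z * (g0 * z) = g0 * (z * g0) * z := by noncomm_ring
        _ = g0 * (g0 * z) * z := by rw [hg0.2 z]
        _ = (g0 * g0) * (z * z) := by noncomm_ring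
        _ = g0 * z := by rw [hg0.1.2, hz.1.2]
    · intro a
      rw [mul_assoc, hz.2 a, ← mul_assoc, hg0.2 a, mul_assoc]
  have hptt : p * t = t := by
    calc p * t = p * (g0 * p * t) := by rw [ht2]
      _ = (p * g0) * (p * t) := by noncomm_ring
      _ = (g0 * p) * (p * t) := by rw [hg0.2 p]
      _ = g0 * (p * p) * t := by noncomm_ring
      _ = t := by rw [hp.2, ht2]
  choose! v hv1 hv2 using fun (e : A) (he : e ∈ J) => (hJ1 e he).2.2
  refine ⟨g0 * z, hgc, ?_, ?_, Jf.card + 1,
    Fin.cons (star t) (fun i => (g0 * z) * v (Jf.equivFin.symm i : A)), ?_, ?_⟩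
  · rw [← mul_assoc, ← hg0.2 z, mul_assoc, hz.1.2]
  · intro h
    apply hgp
    have h3 : g0 * z * p = g0 * p := by rw [mul_assoc, hzp]
    rw [← h3, h, zero_mul]
  · intro j
    refine Fin.cases ?_ (fun i => ?_) j
    · simp only [Fin.cons_zero]
      constructor
      · unfold PIs
        rw [star_star, mul_assoc]
        have h3 : t * (g0 * r) = t := cop_vp ht1 hg0r
        have h4 := congrArg star h3
        rw [star_mul, hg0r.1, ← ht1, mul_assoc] at h4
        exact h4
      · have h4 := congrArg star hptt
        rwa [star_mul, hp.1] at h4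
    · simp only [Fin.cons_succ]
      have hmemi : (Jf.equivFin.symm i : A) ∈ J := (hmem _).1 (Jf.equivFin.symm i).2
      set e : A := (Jf.equivFin.symm i : A)
      have hvp : v e * p = v e := cop_vp (hv1 e hmemi) hp
      constructor
      · unfold PIs
        rw [star_mul, hgc.1.1]
        calc g0 * z * v e * (star (v e) * (g0 * z)) * (g0 * z * v e)
            = g0 * z * (v e * star (v e)) * ((g0 * z) * (g0 * z)) * v e := by noncomm_ring
          _ = g0 * z * (v e * star (v e)) * (g0 * z) * v e := by rw [hgc.1.2]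
          _ = (g0 * z) * ((v e * star (v e)) * (g0 * z)) * v e := by noncomm_ring
          _ = (g0 * z) * ((g0 * z) * (v e * star (v e))) * v e := by rw [hgc.2 (v e * star (v e))]
          _ = ((g0 * z) * (g0 * z)) * (v e * (star (v e) * v e)) := by noncomm_ring
          _ = g0 * z * v e := by rw [hgc.1.2, hv1 e hmemi, hvp]
      · rw [mul_assoc, hvp]
  · rw [Fin.sum_univ_succ]
    simp only [Fin.cons_zero, Fin.cons_succ, star_star]
    have h3 : ∀ i : Fin Jf.card, g0 * z * v (Jf.equivFin.symm i : A) *
        star (g0 * z * v (Jf.equivFin.symm i : A)) = (g0 * z) * (Jf.equivFin.symm i : A) := by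
      intro i
      have hmemi : (Jf.equivFin.symm i : A) ∈ J := (hmem _).1 (Jf.equivFin.symm i).2
      set e : A := (Jf.equivFin.symm i : A)
      rw [star_mul, hgc.1.1]
      calc g0 * z * v e * (star (v e) * (g0 * z)) = (g0 * z) * ((v e * star (v e)) * (g0 * z)) := by
            noncomm_ring
        _ = (g0 * z) * ((g0 * z) * (v e * star (v e))) := by rw [hgc.2 (v e * star (v e))]
        _ = ((g0 * z) * (g0 * z)) * (v e * star (v e)) := by noncomm_ring
        _ = g0 * z * e := by rw [hgc.1.2, hv2 e hmemi]
    rw [Finset.sum_congr rfl fun i _ => h3 i, ← Finset.mul_sum, ht1]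
    have h4 : ∑ i : Fin Jf.card, (Jf.equivFin.symm i : A) = s := by
      rw [hs, ← Finset.sum_coe_sort Jf (fun e => e)]
      exact Equiv.sum_comp Jf.equivFin.symm (fun e : Jf => (e : A))
    rw [h4, mul_assoc, hzs, ← mul_add]
    congr 1
    rw [hr]
    abel

end H759R2.Kad
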