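import Mathlib
import Pool.Agent.H759R2.Kad.Props7

open scoped ComplexOrder InnerProductSpace ComplexConjugate
open Finset

noncomputable section

namespace H759R2.Kad

universe u v

section ext

variable {A : Type u} [CStarAlgebra A]
variable {K : Type u} [NormedAddCommGroup K] [InnerProductSpace ℂ K] [CompleteSpace K]

/-- diagonal operator -/
def extD (n : ℕ) (x : K →L[ℂ] K) : HH (Fin n) K →L[ℂ] HH (Fin n) K :=
  opMat fun i j => if i = j then x else 0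

omit [CompleteSpace K] in
theorem extD_apply (n : ℕ) (x : K →L[ℂ] K) (v : HH (Fin n) K) (i : Fin n) :
    extD n x v i = x (v i) := by
  unfold extD
  rw [opMat_apply, Finset.sum_eq_single i]
  · simp
  · intro j _ hj
    simp [Ne.symm hj]
  · simp

/-- the diagonal representation -/
def extPi (n : ℕ) (π : A →⋆ₐ[ℂ] (K →L[ℂ] K)) :
    A →⋆ₐ[ℂ] (HH (Fin n) K →L[ℂ] HH (Fin n) K) where
  toFun a := extD n (π a)
  map_one' := by
    ext v i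
    rw [extD_apply]
    simp
  map_mul' a b := by
    ext v i
    simp [extD_apply]
  map_zero' := by
    ext v i
    rw [extD_apply]
    simp
  map_add' a b := by
    ext v i
    simp [extD_apply]
  commutes' c := by
    ext v i
    rw [extD_apply]
    simp [Algebra.algebraMap_eq_smul_one]
  map_star' a := by
    unfold extD
    rw [opMat_star]
    congr 1
    funext i j
    by_cases h : i = j
    · subst h
      simp [map_star]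
    · rw [if_neg h, if_neg (Ne.symm h), star_zero]

theorem extPi_apply (n : ℕ) (π : A →⋆ₐ[ℂ] (K →L[ℂ] K)) (a : A) :
    extPi n π a = extD n (π a) := rfl

/-- pairs of vectors -/
def ExtDense (π : A →⋆ₐ[ℂ] (K →L[ℂ] K)) (x : K →L[ℂ] K) : Prop :=
  ∀ (ζ₁ ζ₂ : K) (ε : ℝ), 0 < ε → ∃ a, ‖x ζ₁ - π a ζ₁‖ ≤ ε ∧ ‖x ζ₂ - π a ζ₂‖ ≤ ε

omit [CompleteSpace K] in
theorem ext_le_zero {r B : ℝ} (hB : 0 ≤ B) (h : ∀ ε : ℝ, 0 < ε → r ≤ B * ε) : r ≤ 0 := by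
  by_contra hcon
  push Not at hcon
  have h1 := h (r / (2 * (B + 1))) (by positivity)
  have h2 : B * (r / (2 * (B + 1))) < r := by
    rw [← mul_div_assoc, div_lt_iff₀ (by positivity)]
    nlinarith
  linarith

theorem ext_comm {π : A →⋆ₐ[ℂ] (K →L[ℂ] K)} {x : K →L[ℂ] K} (hx : ExtDense π x)
    {T : K →L[ℂ] K} (hT : ∀ a, T * π a = π a * T) : T * x = x * T := by
  ext y
  simp only [mul_apply_eq_comp]
  rw [← sub_eq_zero, ← norm_le_zero_iff]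
  refine ext_le_zero (B := ‖T‖ + 1) (by positivity) fun ε hε => ?_
  obtain ⟨a, h1, h2⟩ := hx y (T y) ε hε
  have h3 : T (π a y) = π a (T y) := by
    have := congrArg (fun S : K →L[ℂ] K => S y) (hT a)
    simpa using this
  have h4 : T (x y) - x (T y) = T (x y - π a y) - (x (T y) - π a (T y)) := by
    rw [map_sub, h3]
    abel
  rw [h4]
  calc ‖T (x y - π a y) - (x (T y) - π a (T y))‖ ≤ ‖T (x y - π a y)‖ + ‖x (T y) - π a (T y)‖ :=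
        norm_sub_le _ _
    _ ≤ ‖T‖ * ε + ε := by
        refine add_le_add ((T.le_opNorm _).trans ?_) h2
        exact mul_le_mul_of_nonneg_left h1 (norm_nonneg _)
    _ = (‖T‖ + 1) * ε := by ring

/-- entry of an operator on the sum -/
def extEnt (n : ℕ) (T : HH (Fin n) K →L[ℂ] HH (Fin n) K) (i j : Fin n) : K →L[ℂ] K :=
  (ContinuousLinearMap.proj i ∘L
    (PiLp.continuousLinearEquiv 2 ℂ (fun _ : Fin n => K)).toContinuousLinearMap) ∘L T ∘L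
      ((PiLp.continuousLinearEquiv 2 ℂ (fun _ : Fin n => K)).symm.toContinuousLinearMap ∘L
        ContinuousLinearMap.single ℂ (fun _ : Fin n => K) j)

omit [CompleteSpace K] in
theorem extEnt_apply (n : ℕ) (T : HH (Fin n) K →L[ℂ] HH (Fin n) K) (i j : Fin n) (y : K) :
    extEnt n T i j y = T (inj j y) i := by
  rfl

omit [CompleteSpace K] in
theorem ext_sum (n : ℕ) (T : HH (Fin n) K →L[ℂ] HH (Fin n) K) (v : HH (Fin n) K) (i : Fin n) :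
    T v i = ∑ j, extEnt n T i j (v j) := by
  conv_lhs => rw [← sum_inj v, map_sum]
  simp only [extEnt_apply]
  simp

omit [CompleteSpace K] in
theorem extD_inj (n : ℕ) (x : K →L[ℂ] K) (j : Fin n) (y : K) :
    extD n x (inj j y) = inj j (x y) := by
  ext i
  rw [extD_apply, inj_apply, inj_apply]
  split_ifs
  · rfl
  · exact map_zero x

theorem ext_commD {n : ℕ} {π : A →⋆ₐ[ℂ] (K →L[ℂ] K)} {x : K →L[ℂ] K} (hx : ExtDense π x)
    {T : HH (Fin n) K →L[ℂ] HH (Fin n) K} (hT : ∀ a, T * extD n (π a) = extD n (π a) * T) :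
    T * extD n x = extD n x * T := by
  have h1 : ∀ i j, extEnt n T i j * x = x * extEnt n T i j := by
    intro i j
    refine ext_comm hx fun a => ?_
    ext y
    simp only [mul_apply_eq_comp]
    rw [extEnt_apply, extEnt_apply, ← extD_inj]
    have h2 := congrArg (fun S : HH (Fin n) K →L[ℂ] HH (Fin n) K => S (inj j y) i) (hT a)
    simp only [mul_apply_eq_comp] at h2
    rw [h2, extD_apply]
  ext v i
  simp only [mul_apply_eq_comp]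
  rw [extD_apply, ext_sum, ext_sum, map_sum]
  refine Finset.sum_congr rfl fun j _ => ?_
  rw [extD_apply]
  have h2 := congrArg (fun S : K →L[ℂ] K => S (v j)) (h1 i j)
  simpa using h2

theorem ext_dense (h2 : G_bic.{u}) {π : A →⋆ₐ[ℂ] (K →L[ℂ] K)} {x : K →L[ℂ] K}
    (hx : ExtDense π x) (n : ℕ) (Z : Fin n → K) {ε : ℝ} (hε : 0 < ε) :
    ∃ a, ∀ i, ‖x (Z i) - π a (Z i)‖ ≤ ε := by
  obtain ⟨M, hM1, hM2⟩ := h2 A (HH (Fin n) K) (extPi n π)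
  have hmem : extD n x ∈ M := by
    have h3 : extD n x ∈ Set.centralizer (Set.centralizer (M : Set (HH (Fin n) K →L[ℂ] HH (Fin n) K))) := by
      rw [Set.mem_centralizer_iff]
      intro T hT
      rw [Set.mem_centralizer_iff] at hT
      apply ext_commD hx
      intro a
      exact (hT _ (hM1 a)).symm
    rw [VonNeumannAlgebra.centralizer_centralizer] at h3
    exact h3
  obtain ⟨a, ha, -⟩ := hM2 _ hmem (WithLp.toLp 2 Z) 0 ε hε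
  refine ⟨a, fun i => ?_⟩
  have h4 : (extD n x (WithLp.toLp 2 Z) - extPi n π a (WithLp.toLp 2 Z)) i =
      x (Z i) - π a (Z i) := by
    rw [PiLp.sub_apply, extPi_apply, extD_apply, extD_apply]
  rw [← h4]
  exact (PiLp.norm_apply_le _ i).trans ha

/-- linear relations between three vector functionals extend -/
theorem ext_L (h2 : G_bic.{u}) {π : A →⋆ₐ[ℂ] (K →L[ℂ] K)} {x : K →L[ℂ] K}
    (hx : ExtDense π x) {α β : ℂ} {ζ₁ ω₁ ζ₂ ω₂ ζ₃ ω₃ : K}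
    (h : ∀ a, ⟪ζ₁, π a ω₁⟫_ℂ = α * ⟪ζ₂, π a ω₂⟫_ℂ + β * ⟪ζ₃, π a ω₃⟫_ℂ) :
    ⟪ζ₁, x ω₁⟫_ℂ = α * ⟪ζ₂, x ω₂⟫_ℂ + β * ⟪ζ₃, x ω₃⟫_ℂ := by
  rw [← sub_eq_zero, ← norm_le_zero_iff]
  refine ext_le_zero (B := ‖ζ₁‖ + ‖α‖ * ‖ζ₂‖ + ‖β‖ * ‖ζ₃‖) (by positivity) fun ε hε => ?_
  obtain ⟨a, ha⟩ := ext_dense h2 hx 3 ![ω₁, ω₂, ω₃] hε
  have a1 : ‖x ω₁ - π a ω₁‖ ≤ ε := ha 0
  have a2 : ‖x ω₂ - π a ω₂‖ ≤ ε := ha 1
  have a3 : ‖x ω₃ - π a ω₃‖ ≤ ε := ha 2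
  have h5 : ⟪ζ₁, x ω₁⟫_ℂ - (α * ⟪ζ₂, x ω₂⟫_ℂ + β * ⟪ζ₃, x ω₃⟫_ℂ) =
      ⟪ζ₁, x ω₁ - π a ω₁⟫_ℂ - α * ⟪ζ₂, x ω₂ - π a ω₂⟫_ℂ - β * ⟪ζ₃, x ω₃ - π a ω₃⟫_ℂ := by
    rw [inner_sub_right, inner_sub_right, inner_sub_right, h a]
    ring
  have b : ∀ ζ y : K, ‖y‖ ≤ ε → ‖⟪ζ, y⟫_ℂ‖ ≤ ‖ζ‖ * ε := fun ζ y hy =>
    (norm_inner_le_norm _ _).trans (mul_le_mul_of_nonneg_left hy (norm_nonneg _))
  rw [h5]
  calc _ ≤ ‖⟪ζ₁, x ω₁ - π a ω₁⟫_ℂ‖ + ‖α * ⟪ζ₂, x ω₂ - π a ω₂⟫_ℂ‖ +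
        ‖β * ⟪ζ₃, x ω₃ - π a ω₃⟫_ℂ‖ :=
        (norm_sub_le _ _).trans (add_le_add (norm_sub_le _ _) le_rfl)
    _ ≤ ‖ζ₁‖ * ε + ‖α‖ * (‖ζ₂‖ * ε) + ‖β‖ * (‖ζ₃‖ * ε) := by
        rw [norm_mul, norm_mul]
        gcongr
        · exact b _ _ a1
        · exact b _ _ a2
        · exact b _ _ a3
    _ = _ := by ring

end ext

theorem prove7_ext (h1 : G_rep.{u}) (h2 : G_bic.{u}) : G_ext.{u, v} := by
  intro A _
  obtain ⟨K, iK1, iK2, iK3, π, hπ⟩ := h1 A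
  obtain ⟨M, hM1, hM2⟩ := h2 A K π
  refine ⟨K, iK1, iK2, iK3, M, π.codRestrict M.toStarSubalgebra hM1, ?_⟩
  intro H _ _ _ w hw c hc hwc
  have hd : ∀ x : M.toStarSubalgebra, ExtDense π (x : K →L[ℂ] K) := fun x => hM2 _ x.2
  -- choice of the vectors
  have hch : ∀ ξ η : H, ∃ ζ ω : K, (∀ a, ⟪ξ, w a η⟫_ℂ = ⟪ζ, π a ω⟫_ℂ) ∧
      ‖ζ‖ * ‖ω‖ ≤ 4 * (c * ‖ξ‖ * ‖η‖) := by
    intro ξ η
    let f : A →ₗ[ℂ] ℂ :=
      { toFun := fun a => ⟪ξ, w a η⟫_ℂ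
        map_add' := by intro a b; simp
        map_smul' := by intro r a; simp }
    refine hπ f (c * ‖ξ‖ * ‖η‖) (by positivity) fun a => ?_
    calc ‖f a‖ ≤ ‖ξ‖ * ‖w a η‖ := norm_inner_le_norm _ _
      _ ≤ ‖ξ‖ * (c * ‖a‖ * ‖η‖) := by
          refine mul_le_mul_of_nonneg_left (((w a).le_opNorm η).trans ?_) (norm_nonneg _)
          exact mul_le_mul_of_nonneg_right (hwc a) (norm_nonneg _)
      _ = c * ‖ξ‖ * ‖η‖ * ‖a‖ := by ring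
  choose Z O hZO hn using hch
  have hbd : ∀ (x : K →L[ℂ] K) (ξ η : H), ‖⟪Z ξ η, x (O ξ η)⟫_ℂ‖ ≤ 4 * c * ‖x‖ * ‖ξ‖ * ‖η‖ := by
    intro x ξ η
    calc ‖⟪Z ξ η, x (O ξ η)⟫_ℂ‖ ≤ ‖Z ξ η‖ * ‖x (O ξ η)‖ := norm_inner_le_norm _ _
      _ ≤ ‖Z ξ η‖ * (‖x‖ * ‖O ξ η‖) := by
          exact mul_le_mul_of_nonneg_left (x.le_opNorm _) (norm_nonneg _)
      _ = ‖x‖ * (‖Z ξ η‖ * ‖O ξ η‖) := by ring
      _ ≤ ‖x‖ * (4 * (c * ‖ξ‖ * ‖η‖)) := mul_le_mul_of_nonneg_left (hn ξ η) (norm_nonneg _)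
      _ = _ := by ring
  -- the sesquilinear form
  have hex : ∀ x : M.toStarSubalgebra, ∃ T : H →L[ℂ] H, ∀ ξ η : H,
      ⟪ξ, T η⟫_ℂ = ⟪Z ξ η, (x : K →L[ℂ] K) (O ξ η)⟫_ℂ := by
    intro x
    have add_l : ∀ ξ ξ' η : H, ⟪Z (ξ + ξ') η, (x : K →L[ℂ] K) (O (ξ + ξ') η)⟫_ℂ =
        ⟪Z ξ η, (x : K →L[ℂ] K) (O ξ η)⟫_ℂ + ⟪Z ξ' η, (x : K →L[ℂ] K) (O ξ' η)⟫_ℂ := by
      intro ξ ξ' η
      have := ext_L h2 (hd x) (α := 1) (β := 1) (ζ₁ := Z (ξ + ξ') η) (ω₁ := O (ξ + ξ') η)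
        (ζ₂ := Z ξ η) (ω₂ := O ξ η) (ζ₃ := Z ξ' η) (ω₃ := O ξ' η) (fun a => by
          rw [← hZO, ← hZO, ← hZO, inner_add_left]; ring)
      rw [this]; ring
    have smul_l : ∀ (r : ℂ) (ξ η : H), ⟪Z (r • ξ) η, (x : K →L[ℂ] K) (O (r • ξ) η)⟫_ℂ =
        conj r * ⟪Z ξ η, (x : K →L[ℂ] K) (O ξ η)⟫_ℂ := by
      intro r ξ η
      have := ext_L h2 (hd x) (α := conj r) (β := 0) (ζ₁ := Z (r • ξ) η) (ω₁ := O (r • ξ) η)
        (ζ₂ := Z ξ η) (ω₂ := O ξ η) (ζ₃ := 0) (ω₃ := 0) (fun a => by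
          rw [← hZO, ← hZO, inner_smul_left]; ring)
      rw [this]; ring
    have add_r : ∀ ξ η η' : H, ⟪Z ξ (η + η'), (x : K →L[ℂ] K) (O ξ (η + η'))⟫_ℂ =
        ⟪Z ξ η, (x : K →L[ℂ] K) (O ξ η)⟫_ℂ + ⟪Z ξ η', (x : K →L[ℂ] K) (O ξ η')⟫_ℂ := by
      intro ξ η η'
      have := ext_L h2 (hd x) (α := 1) (β := 1) (ζ₁ := Z ξ (η + η')) (ω₁ := O ξ (η + η'))
        (ζ₂ := Z ξ η) (ω₂ := O ξ η) (ζ₃ := Z ξ η') (ω₃ := O ξ η') (fun a => by
          rw [← hZO, ← hZO, ← hZO, map_add, inner_add_right]; ring)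
      rw [this]; ring
    have smul_r : ∀ (r : ℂ) (ξ η : H), ⟪Z ξ (r • η), (x : K →L[ℂ] K) (O ξ (r • η))⟫_ℂ =
        r * ⟪Z ξ η, (x : K →L[ℂ] K) (O ξ η)⟫_ℂ := by
      intro r ξ η
      have := ext_L h2 (hd x) (α := r) (β := 0) (ζ₁ := Z ξ (r • η)) (ω₁ := O ξ (r • η))
        (ζ₂ := Z ξ η) (ω₂ := O ξ η) (ζ₃ := 0) (ω₃ := 0) (fun a => by
          rw [← hZO, ← hZO, map_smul, inner_smul_right]; ring)
      rw [this]; ring
    let B0 : H →ₗ⋆[ℂ] H →ₗ[ℂ] ℂ := LinearMap.mk₂'ₛₗ (starRingEnd ℂ) (RingHom.id ℂ)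
      (fun ξ η => ⟪Z ξ η, (x : K →L[ℂ] K) (O ξ η)⟫_ℂ) add_l
      (fun r ξ η => by rw [smul_l]; rfl) add_r (fun r ξ η => by rw [smul_r]; rfl)
    let B : H →L⋆[ℂ] H →L[ℂ] ℂ := B0.mkContinuous₂ (4 * c * ‖(x : K →L[ℂ] K)‖)
      (fun ξ η => hbd _ ξ η)
    refine ⟨ContinuousLinearMap.adjoint (InnerProductSpace.continuousLinearMapOfBilin B), ?_⟩
    intro ξ η
    rw [ContinuousLinearMap.adjoint_inner_right,
      InnerProductSpace.continuousLinearMapOfBilin_apply]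
    rfl
  choose W hW using hex
  -- linearity
  let w' : M.toStarSubalgebra →ₗ[ℂ] (H →L[ℂ] H) :=
    { toFun := W
      map_add' := by
        intro x y
        ext η
        refine ext_inner_left ℂ fun ξ => ?_
        rw [hW, add_apply, inner_add_right, hW, hW, ← inner_add_right]
        rfl
      map_smul' := by
        intro r x
        ext η
        refine ext_inner_left ℂ fun ξ => ?_
        rw [hW, RingHom.id_apply, smul_apply, inner_smul_right, hW, ← inner_smul_right]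
        rfl }
  have hw' : ∀ (x : M.toStarSubalgebra) (ξ η : H),
      ⟪ξ, w' x η⟫_ℂ = ⟪Z ξ η, (x : K →L[ℂ] K) (O ξ η)⟫_ℂ := hW
  have hwι : ∀ a, w' (π.codRestrict M.toStarSubalgebra hM1 a) = w a := by
    intro a
    ext η
    refine ext_inner_left ℂ fun ξ => ?_
    rw [hw', hZO]
    rfl
  refine ⟨w', ⟨?_, ?_⟩, ?_, hwι⟩
  · -- multiplicativity, first step
    have step1 : ∀ (a : A) (y : M.toStarSubalgebra) (ξ η : H),
        ⟪Z ξ η, π a ((y : K →L[ℂ] K) (O ξ η))⟫_ℂ = ⟪ξ, w a (w' y η)⟫_ℂ := by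
      intro a y ξ η
      have e1 : ⟪ξ, w a (w' y η)⟫_ℂ = ⟪ContinuousLinearMap.adjoint (w a) ξ, w' y η⟫_ℂ := by
        rw [ContinuousLinearMap.adjoint_inner_left]
      have e2 : ⟪Z ξ η, π a ((y : K →L[ℂ] K) (O ξ η))⟫_ℂ =
          ⟪ContinuousLinearMap.adjoint (π a) (Z ξ η), (y : K →L[ℂ] K) (O ξ η)⟫_ℂ := by
        rw [ContinuousLinearMap.adjoint_inner_left]
      rw [e1, e2, hw']
      set ξ' := ContinuousLinearMap.adjoint (w a) ξ with hξ'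
      have := ext_L h2 (hd y) (α := 1) (β := 0)
        (ζ₁ := ContinuousLinearMap.adjoint (π a) (Z ξ η)) (ω₁ := O ξ η)
        (ζ₂ := Z ξ' η) (ω₂ := O ξ' η) (ζ₃ := 0) (ω₃ := 0) (fun b => by
          rw [ContinuousLinearMap.adjoint_inner_left, ← hZO, hξ',
            ContinuousLinearMap.adjoint_inner_left]
          have e3 : π a (π b (O ξ η)) = π (a * b) (O ξ η) := by rw [map_mul]; rfl
          have e4 : w a (w b η) = w (a * b) η := by rw [hw.mul]; rfl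
          rw [e3, e4, ← hZO]
          ring)
      rw [this]
      ring
    intro x y
    ext η
    refine ext_inner_left ℂ fun ξ => ?_
    rw [hw', mul_apply_eq_comp, hw']
    have := ext_L h2 (hd x) (α := 1) (β := 0)
      (ζ₁ := Z ξ η) (ω₁ := (y : K →L[ℂ] K) (O ξ η))
      (ζ₂ := Z ξ (w' y η)) (ω₂ := O ξ (w' y η)) (ζ₃ := 0) (ω₃ := 0) (fun a => by
        rw [step1, ← hZO]
        ring)
    have e5 : ((x * y : M.toStarSubalgebra) : K →L[ℂ] K) (O ξ η) =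
        (x : K →L[ℂ] K) ((y : K →L[ℂ] K) (O ξ η)) := rfl
    rw [e5, this]
    ring
  · have h3 := hwι 1
    rw [map_one, hw.one] at h3
    exact h3
  · intro x
    refine ContinuousLinearMap.opNorm_le_bound _ (by positivity) fun η => ?_
    by_cases h0 : w' x η = 0
    · rw [h0, norm_zero]; positivity
    have h3 : ‖w' x η‖ * ‖w' x η‖ ≤ 4 * c * ‖x‖ * ‖w' x η‖ * ‖η‖ := by
      have h4 := hbd (x : K →L[ℂ] K) (w' x η) η
      rw [← hw', inner_self_eq_norm_sq_to_K, norm_pow] at h4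
      have h6 : ‖((‖w' x η‖ : ℝ) : ℂ)‖ = ‖w' x η‖ := by
        rw [Complex.norm_real, norm_norm]
      have h7 : ‖((‖w' x η‖ : ℝ) : ℂ)‖ ^ 2 ≤ 4 * c * ‖(x : K →L[ℂ] K)‖ * ‖w' x η‖ * ‖η‖ := h4
      rw [h6, sq] at h7
      exact h7
    have h5 : 0 < ‖w' x η‖ := norm_pos_iff.2 h0
    nlinarith

end H759R2.Kad
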